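import Pool.Agent.Lib.H8.Shc2

/-!
Shift complexity and strong shift complexity are weakly equivalent.
-/

namespace Pool.Agent.Results.MP_8e1844_lc.Yes

open Pool.Agent.Lib.H8 Arith CList Wei Qm Rnd Kc Om Gen Low Shc Finset Classical

/-- The block of `n` bits from position `i`. -/
def block (X : ℕ → Bool) (i n : ℕ) : List Bool := (List.range n).map fun j => X (i + j)

/-- A universal prefix-free machine. -/
def UnivPF (V : List Bool →. List Bool) : Prop :=
  Partrec V ∧ (∀ p q : List Bool, (V p).Dom → (V q).Dom → p <+: q → p = q) ∧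
    ∀ M : List Bool →. List Bool, Partrec M →
      (∀ p q : List Bool, (M p).Dom → (M q).Dom → p <+: q → p = q) →
      ∃ c : ℕ, ∀ p z : List Bool, z ∈ M p → ∃ q : List Bool, q.length ≤ p.length + c ∧ z ∈ V q

/-- The length of a shortest description. -/
noncomputable def K (V : List Bool →. List Bool) (s : List Bool) : ℕ :=
  sInf {m : ℕ | ∃ p : List Bool, p.length = m ∧ s ∈ V p}

/-- Left-r.e. continuous semimeasures. -/
def SemiM (M : List Bool → ℝ) : Prop :=
  (∀ s, 0 ≤ M s) ∧ M [] = 1 ∧ (∀ s, M (s ++ [false]) + M (s ++ [true]) ≤ M s) ∧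
    REPred fun q : List Bool × ℕ × ℕ => (q.2.1 : ℝ) / 2 ^ q.2.2 < M q.1

/-- Universal left-r.e. continuous semimeasures. -/
def UnivM (M : List Bool → ℝ) : Prop :=
  SemiM M ∧ ∀ N, SemiM N → ∃ c : ℝ, 0 < c ∧ ∀ s, c * N s ≤ M s

/-- Shift-complex sequences. -/
def SC (V : List Bool →. List Bool) (d : ℚ) : Set (ℕ → Bool) :=
  {X | ∃ c : ℕ, ∀ i n : ℕ, (d : ℝ) * n - c ≤ K V (block X i n)}

/-- Strongly shift-complex sequences. -/
def SSC (M : List Bool → ℝ) (d : ℚ) : Set (ℕ → Bool) :=
  {X | ∃ c : ℕ, ∀ i n : ℕ, (d : ℝ) * n - c ≤ -Real.logb 2 (M (block X i n))}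

/-- Weak reducibility of mass problems. -/
def Weak (P Q : Set (ℕ → Bool)) : Prop :=
  ∀ Y ∈ Q, ∃ X ∈ P,
    TuringReducible (fun n => Part.some (X n).toNat) fun n => Part.some (Y n).toNat

theorem result (V : List Bool →. List Bool) (hV : UnivPF V) (M : List Bool → ℝ) (hM : UnivM M)
    (d : ℚ) (d0 : 0 < d) (d1 : d < 1) : Weak (SC V d) (SSC M d) ∧ Weak (SSC M d) (SC V d) := by
  have f := @Computable.fst
  have s := @Computable.snd
  have d0 : (0 : ℝ) < d := by exact_mod_cast d0
  have d1 : (d : ℝ) < 1 := by exact_mod_cast d1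
  obtain ⟨N, n0, n1, n2, n3, n4⟩ := semi hV.1 hV.2.1
  obtain ⟨a, a0, a1⟩ := hM.2 N ⟨n0, n1, n2, n3⟩
  have lo (y) : a * 2⁻¹ ^ cx V y ≤ M y := by
    obtain ⟨p, p1, p2⟩ := cx_spec (OptP.sur hV.2.2) y
    exact le_trans (by gcongr; exact p1 ▸ n4 _ _ p2) (a1 y)
  have po (y) : 0 < M y := (lo y).trans_lt' (by positivity)
  refine ⟨fun Y ⟨c, h⟩ => ⟨Y, ⟨c + ⌈-Real.logb 2 a⌉₊, fun i n => ?_⟩, Orc.R.self.tur⟩,
    fun X ⟨c, h⟩ => ?_⟩
  · have := Real.logb_le_logb_of_le one_lt_two (by positivity) (lo (block Y i n))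
    rw [Real.logb_mul a0.ne' (by positivity), Real.logb_pow, Real.logb_inv,
      Real.logb_self_eq_one one_lt_two] at this
    change _ ≤ (cx V _ : ℝ)
    push_cast
    linarith [h i n, Nat.le_ceil (-Real.logb 2 a)]
  obtain ⟨W, w0, w1⟩ := ex_opt
  obtain ⟨R, t, r0, t1, t2⟩ : ∃ (R : ℕ) (t : List (List Bool)), 0 < R ∧ t.length ≤ 2 ^ R ∧
      ∀ b, blk (R + 1) X b ∈ t := by
    obtain ⟨c1, w2⟩ := dbl hV.2.2 w0 w1
    obtain ⟨c2, w3⟩ := w1.bound (S := fun z => z.2 = List.replicate (z.1.1 * z.1.1) false)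
      (CeAlg.cs (ceq s (Dud.crep (ml (f.comp f) (f.comp f)) (Computable.const _))))
    obtain ⟨e, he⟩ := exists_nat_gt ((2 + 2 * c2 + c1 + c) / d : ℝ)
    rw [div_lt_iff₀ d0] at he
    have e0 : 0 < e := by
      rcases e with _ | e
      · simp at he; linarith [show (0 : ℝ) ≤ 2 * c2 + c1 + c by positivity]
      · omega
    refine table (z := List.replicate (e * e) false) (by simpa using e0.ne') fun b k => ?_
    have := w3 e 0 (List.replicate (e * e) false) rfl fun F k =>
      card_le_one.2 fun x p y q => (k x p).trans (k y q).symm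
    have := w2 (List.replicate (e * e) false)
    have l : (cx V (List.replicate (e * e) false) : ℝ) ≤ 2 * e + 2 * c2 + c1 := by
      exact_mod_cast (by omega)
    rw [List.length_replicate] at k
    have := h (b * (e * e)) (e * e)
    rw [show block _ _ _ = _ from k] at this
    have e1 : (1 : ℝ) ≤ e := by exact_mod_cast e0
    change _ ≤ (cx V _ : ℝ) at this
    push_cast at this
    nlinarith [show (0 : ℝ) ≤ 2 * c2 + c1 + c by positivity]
  obtain ⟨ix, i5, i6⟩ := csel (P := fun (y : List Bool) u => y ∈ t → u < t.length ∧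
      t.getD u [] = y) (cimp (cmem (Computable.const t) f) (cand (clt s (Computable.const _))
        (ceq ((Primrec.list_getD []).to_comp.comp (Computable.const t) s) f))) fun y => by
    by_cases k : y ∈ t
    · obtain ⟨u, a, b⟩ := List.getElem_of_mem k
      exact ⟨u, fun _ => ⟨a, (List.getD_eq_getElem _ _ a).trans b⟩⟩
    · exact ⟨0, fun l => (k l).elim⟩
  let Y j := (ix (blk (R + 1) X (j / R))).testBit (j % R)
  obtain ⟨D, hD⟩ := exists_nat_gt ((3 * R + 2) / d : ℝ)
  rw [div_lt_iff₀ d0] at hD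
  have D0 : 0 < D := by
    rcases D with _ | D
    · simp at hD; linarith [show (0 : ℝ) ≤ 3 * R by positivity]
    · omega
  obtain ⟨c1, w2⟩ := pfx hV.2.2 w0 w1 D0
  obtain ⟨dn, n5, n6⟩ := csel (P := fun (y : List Bool) u => u < 2 ^ y.length ∧
      pr u.testBit y.length = y) (cand (clt s (pow_c.comp (Computable.list_length.comp f)))
        (ceq (bits_c s (Computable.list_length.comp f)) f)) fun y => by
    obtain ⟨u, a, b⟩ := pr_sur (y.getD · false) y.length
    exact ⟨u, a, by rw [← b, pr_getD]⟩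
  obtain ⟨dc, c5, c6⟩ : ∃ dc : ℕ × List Bool → List Bool, Computable dc ∧ ∀ e y, dc (e, y) =
      ((List.range (e / (R + 1) * D)).map fun i =>
        t.getD (dn ((y.drop (e % (R + 1) + i * R)).take R)) []).flatten := by
    have : Computable fun z : (ℕ × List Bool) × ℕ =>
        t.getD (dn ((z.1.2.drop (z.1.1 % (R + 1) + z.2 * R)).take R)) [] :=
      (Primrec.list_getD []).to_comp.comp (Computable.const t) (n5.comp
        (Primrec.list_take.to_comp.comp (Computable.const R) (Primrec.list_drop.to_comp.comp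
          (ad (md (f.comp f) _) (ml s (Computable.const R))) (s.comp f))))
    exact ⟨_, Primrec.list_flatten.to_comp.comp (cmap (Primrec.list_range.to_comp.comp
      (ml (dv f _) (Computable.const D))) this.to₂), fun _ _ => rfl⟩
  have e : Computable fun z : ((ℕ × ℕ) × List Bool) × List Bool => z.1.1.1 := f.comp (f.comp f)
  have r : Sig 1 _ fun z : ((ℕ × ℕ) × List Bool) × List Bool =>
      (z.2.length = z.1.1.1 % (R + 1) + z.1.1.1 / (R + 1) * D * R ∧ z.1.2 = dc (z.1.1.1, z.2)) ∧
        ((1 : ℕ) : ℝ) / 2 ^ z.1.1.2 < M z.2 :=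
    (CeAlg.cs (cand (ceq (Computable.list_length.comp s) (ad (md e _) (ml (ml (dv e _)
      (Computable.const D)) (Computable.const R)))) (ceq (s.comp f) (c5.comp (e.pair s))))).and
      ((re_sig hM.1.2.2.2).comp (s.pair ((Computable.const 1).pair (s.comp (f.comp f)))))
  obtain ⟨c2, w3⟩ := w1.bound (sig_ex r)
  dsimp only at w3
  refine ⟨Y, ⟨2 * ((D + 1) * R) + 2 * R + 2 * c2 + c1 + c + 1, fun i n => ?_⟩, Orc.R.tur ?_⟩
  · have k0 : 0 ≤ -Real.logb 2 (M (block Y i n)) := neg_nonneg.2 (Real.logb_nonpos one_lt_two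
      (po _).le (hM.1.2.1 ▸ mono hM.1.1 hM.1.2.2.1 [] _))
    obtain ⟨l, l1, l2⟩ : ∃ l : ℕ, (l : ℝ) ≤ -Real.logb 2 (M (block Y i n)) + 1 ∧
        1 / 2 ^ l < M (block Y i n) := by
      refine ⟨⌊-Real.logb 2 (M (block Y i n))⌋₊ + 1, by push_cast; linarith [Nat.floor_le k0], ?_⟩
      rw [← Real.logb_lt_logb_iff one_lt_two (by positivity) (po _), one_div, Real.logb_inv,
        Real.logb_pow, Real.logb_self_eq_one one_lt_two]
      push_cast
      linarith [Nat.lt_floor_add_one (-Real.logb 2 (M (block Y i n)))]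
    have dn1 : (d : ℝ) * n ≤ n := mul_le_of_le_one_left (by positivity) d1.le
    have z0 : (0 : ℝ) ≤ (D + 1) * R := by positivity
    have z1 : (0 : ℝ) ≤ 2 * c2 + c1 + c := by positivity
    have z2 : (0 : ℝ) ≤ R := by positivity
    rcases le_or_gt n (max l R) with o | o
    · rcases le_max_iff.1 o with o | o <;> have := (Nat.cast_le (α := ℝ)).2 o <;>
        push_cast <;> linarith
    obtain ⟨b, j, j1, j2⟩ : ∃ b j, j < R ∧ i + j = b * R := by
      refine ⟨(i + (R - 1)) / R, (i + (R - 1)) / R * R - i, ?_⟩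
      have := Nat.div_add_mod' (i + (R - 1)) R
      have := Nat.mod_lt (i + (R - 1)) r0
      omega
    obtain ⟨m, m1, m2⟩ : ∃ m, j + m * D * R ≤ n ∧ n ≤ m * D * R + (D + 1) * R := by
      refine ⟨(n - j) / (D * R), ?_⟩
      have := Nat.div_add_mod' (n - j) (D * R)
      have := Nat.mod_lt (n - j) (Nat.mul_pos D0 r0)
      rw [mul_assoc, add_mul]
      omega
    have e1 : (j + m * (R + 1)) / (R + 1) = m := by
      rw [Nat.add_mul_div_right _ _ R.succ_pos, Nat.div_eq_of_lt (by omega), zero_add]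
    have e2 : (j + m * (R + 1)) % (R + 1) = j := by
      rw [Nat.add_mul_mod_self_right, Nat.mod_eq_of_lt (by omega)]
    have := w3 (j + m * (R + 1)) l (block X (b * (R + 1)) (m * D * (R + 1)))
      ⟨pr (fun u => Y (i + u)) (j + m * D * R), ⟨by rw [e1, e2, pr_len], ?_⟩, ?_⟩ fun F k => ?_
    · have q := w2 (block X (b * (R + 1)) (m * D * (R + 1)))
      have := h (b * (R + 1)) (m * D * (R + 1))
      change _ ≤ (cx V _ : ℝ) at this
      generalize cx V _ = A, cx W _ = B at *
      have : B / D ≤ m * R + ((D + 1) * R + (j + m * (R + 1)) + c2) := Nat.div_le_of_le_mul (by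
        have := Nat.le_mul_of_pos_left ((D + 1) * R + (j + m * (R + 1)) + c2) D0
        have := le_max_left l R
        rw [mul_add, ← mul_assoc, mul_comm D m]
        omega)
      have A1 : A ≤ l + m * (3 * R + 2) + (D + 1) * R + 2 * R + 2 * c2 + c1 := by
        rw [show m * (3 * R + 2) = m * R + 2 * (m * (R + 1)) by ring]
        omega
      have A1 := (Nat.cast_le (α := ℝ)).2 A1
      have m2 := mul_le_mul_of_nonneg_left ((Nat.cast_le (α := ℝ)).2 m2) d0.le
      have := mul_le_mul_of_nonneg_left hD.le m.cast_nonneg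
      have := mul_le_of_le_one_left z0 d1.le
      push_cast at *
      linarith
    · rw [c6, e1, e2, show block _ _ _ = _ from pr_fl X b _ _]
      congr 1
      refine List.map_congr_left fun u o => ?_
      have o := List.mem_range.1 o
      have p := (i6 _ (t2 (b + u))).1.trans_le t1
      rw [sub_pr _ (by nlinarith), (pr_eq (q := (ix (blk (R + 1) X (b + u))).testBit)).2
        fun v w => by
          simp only [Y]
          rw [show i + (j + u * R + v) = v + (b + u) * R by rw [add_mul]; omega,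
            Nat.add_mul_div_right _ _ r0, Nat.add_mul_mod_self_right, Nat.div_eq_of_lt w,
            Nat.mod_eq_of_lt w, zero_add]]
      have := n6 (pr (ix (blk (R + 1) X (b + u))).testBit R)
      rw [pr_len] at this
      rw [bits_inj this.1 p this.2, (i6 _ (t2 _)).2]
    · obtain ⟨v, rfl⟩ := Nat.exists_eq_add_of_le m1
      rw [show block Y i _ = _ from pr_add _ _ _] at l2
      simpa using l2.trans_le (mono hM.1.1 hM.1.2.2.1 _ _)
    · refine (card_le_card fun y p => ?_).trans ((card_image_le (f := fun u : ℕ =>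
        dc (j + m * (R + 1), pr u.testBit (j + m * D * R)))).trans
          (few hM.1.1 hM.1.2.1.le hM.1.2.2.1 (j + m * D * R) l))
      obtain ⟨x, ⟨x1, x2⟩, x3⟩ := k y p
      rw [e1, e2] at x1
      have := n6 x
      rw [x1] at this
      exact mem_image.2 ⟨dn x, mem_filter.2 ⟨mem_range.2 this.1, by simpa [this.2] using x3⟩,
        by rw [this.2, x2]⟩
  · have g1 : Computable fun z : (ℕ × List ℕ) × ℕ =>
        decide (z.1.2.getD (z.1.1 / R * (R + 1) + z.2) 0 = 1) :=
      (ceq ((Primrec.list_getD 0).to_comp.comp (s.comp f) (ad (ml (dv (f.comp f) R)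
        (Computable.const _)) s)) (Computable.const 1)).decide
    have g2 : Computable fun z : ℕ × List ℕ => ix ((List.range (R + 1)).map fun i =>
        decide (z.2.getD (z.1 / R * (R + 1) + i) 0 = 1)) :=
      i5.comp (cmap (Computable.const _) g1.to₂)
    have g3 := cite (cp (p := fun q : ℕ × ℕ => q.1.testBit q.2 = true)
      Orc.testBit_prim.computablePred (g2.pair (md f R))) (Computable.const 1) (Computable.const 0)
    refine Orc.tt (cite (cle (ad (ml (dv f R) (Computable.const (R + 1))) (Computable.const (R + 1)))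
      (Computable.list_length.comp s)) (Computable.option_some.comp g3) (Computable.const none))
      (fun a => ⟨a / R * (R + 1) + (R + 1), _, if_pos (by simp)⟩) fun a n y k => ?_
    dsimp only at k
    by_cases o : a / R * (R + 1) + (R + 1) ≤ ((List.range n).map fun n => (X n).toNat).length
    · rw [if_pos o, List.map_congr_left (g := fun i => X (a / R * (R + 1) + i)) fun i q => by
        have : a / R * (R + 1) + i < n := by
          have := List.mem_range.1 q
          simp at o; omega
        cases e : X (a / R * (R + 1) + i) <;> simp [this, e]] at k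
      obtain rfl := Option.some.inj k
      change (if Y a = true then 1 else 0) = (Y a).toNat
      cases Y a <;> rfl
    · rw [if_neg o] at k; cases k

end Pool.Agent.Results.MP_8e1844_lc.Yes
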